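import Pool.Agent.Run7.h982.BT.Iface

/-! # Piece FAM of helper982's project BT (MP_90d4f1_an, Q2): the path of homomorphisms -/

set_option autoImplicit false

open Set Filter Topology

namespace Pool.Agent.Run7.h361.BT

open Pool.Agent.W744.BU Pool.Agent.Run7.h982.BT

/-- the degree of an element of the free group -/
noncomputable def dg {S : Type} : FreeGroup S →* Multiplicative ℤ :=
  FreeGroup.lift fun _ => Multiplicative.ofAdd (1 : ℤ)

theorem dg_of {S : Type} (x : S) : (dg (FreeGroup.of x)).toAdd = 1 := by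
  simp [dg]

theorem dg_pow {S : Type} (x : S) (n : ℕ) : (dg (FreeGroup.of x ^ n)).toAdd = n := by
  rw [map_pow, toAdd_pow, dg_of]; simp

/-- two elements are in the span of a sequence of unitaries -/
theorem exists_seq {B : Type} [CStarAlgebra B] (s t : B) :
    ∃ v : ℕ → B, (∀ n, v n ∈ unitary B) ∧ s ∈ Submodule.span ℂ (range v) ∧
      t ∈ Submodule.span ℂ (range v) := by
  have hs : s ∈ Submodule.span ℂ (unitary B : Set B) := by
    rw [CStarAlgebra.span_unitary]; trivial
  have ht : t ∈ Submodule.span ℂ (unitary B : Set B) := by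
    rw [CStarAlgebra.span_unitary]; trivial
  obtain ⟨T₁, h₁, hs'⟩ := Submodule.mem_span_finite_of_mem_span hs
  obtain ⟨T₂, h₂, ht'⟩ := Submodule.mem_span_finite_of_mem_span ht
  let T : Set B := insert 1 ((T₁ : Set B) ∪ T₂)
  have hT : T.Countable := ((T₁.countable_toSet).union (T₂.countable_toSet)).insert 1
  obtain ⟨v, hv⟩ := hT.exists_eq_range ⟨1, mem_insert _ _⟩
  have hU : ∀ x ∈ T, x ∈ unitary B := by
    intro x hx
    rcases hx with rfl | hx | hx
    · exact one_mem _
    · exact h₁ hx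
    · exact h₂ hx
  refine ⟨v, fun n => hU _ (by rw [hv]; exact mem_range_self n), ?_, ?_⟩
  · rw [← hv]
    exact Submodule.span_mono (fun x hx => mem_insert_of_mem _ (Or.inl hx)) hs'
  · rw [← hv]
    exact Submodule.span_mono (fun x hx => mem_insert_of_mem _ (Or.inr hx)) ht'

theorem tens_zero_left (T : S_TENS) {I J : Type} (b : Op J) : tens (0 : Op I) b = 0 := by
  obtain ⟨_, _, _, _, _, _, h7, _⟩ := T
  have h := (h7 I J 0 0 b).1
  simpa using h

/-- FAM -/
theorem FAM : S_CUNTZ → S_PATH → S_FAM := by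
  intro hC hP S _
  have E : S_ENT := Pool.Agent.W740.BU.ENT.main
  have T : S_TENS := Pool.Agent.W566.BU.TENS.main E
  have D : S_DOP := Pool.Agent.W196.BU.DOP.main E T
  have L : S_LAM := Pool.Agent.W37.BU.LAM.main E T D
  have T' := T
  obtain ⟨T1, T2, T3, T4, T5, T6, T7, T8⟩ := T'
  obtain ⟨K, hK, s, t, hst⟩ := hC
  obtain ⟨v, hv, hsv, htv⟩ := exists_seq s t
  obtain ⟨_, L1, L2', L3, L4, _⟩ := L (FreeGroup S)
  let x₀ : S := Classical.arbitrary S
  let w : FreeGroup S → Op K := fun g =>
    if 2 ≤ (dg g).toAdd then v ((dg g).toAdd - 2).toNat else 1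
  have hw : ∀ g, w g ∈ unitary (Op K) := by
    intro g
    by_cases h : 2 ≤ (dg g).toAdd
    · simp only [w, h, if_true]; exact hv _
    · simp only [w, h, if_false]; exact one_mem _
  have hw1 : ∀ x : S, w (FreeGroup.of x) = 1 := by
    intro x; simp only [w, dg_of]; norm_num
  have hwn : ∀ n : ℕ, w (FreeGroup.of x₀ ^ (n + 2)) = v n := by
    intro n; simp only [w, dg_pow]
    have h1 : (2 : ℤ) ≤ ((n + 2 : ℕ) : ℤ) := by push_cast; omega
    have h2 : (((n + 2 : ℕ) : ℤ) - 2).toNat = n := by push_cast; omega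
    rw [if_pos h1, h2]
  let A : StarSubalgebra ℂ (Op (K × FreeGroup S)) := CA (UU (⟨K, w⟩ : Rep (FreeGroup S)))
  have hUA : ∀ g, UU (⟨K, w⟩ : Rep (FreeGroup S)) g ∈ A := by
    intro g
    exact StarSubalgebra.le_topologicalClosure _
      (StarAlgebra.subset_adjoin ℂ _ (mem_range_self g))
  -- the generators
  have hz : ∀ x : S, tens (1 : Op K) (lam (FreeGroup.of x)) ∈ A := by
    intro x
    have h := hUA (FreeGroup.of x)
    have h' : UU (⟨K, w⟩ : Rep (FreeGroup S)) (FreeGroup.of x)
        = tens (w (FreeGroup.of x)) (lam (FreeGroup.of x)) := rfl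
    rw [h', hw1] at h
    exact h
  have hlp : ∀ (x : S) (n : ℕ), tens (1 : Op K) (lam (FreeGroup.of x ^ n)) ∈ A := by
    intro x n
    induction n with
    | zero => rw [pow_zero, L1, T4]; exact one_mem _
    | succ n ih =>
      have : tens (1 : Op K) (lam (FreeGroup.of x ^ (n + 1)))
          = tens (1 : Op K) (lam (FreeGroup.of x ^ n)) * tens (1 : Op K) (lam (FreeGroup.of x)) := by
        rw [← T2, ← L2', mul_one, pow_succ]
      rw [this]
      exact mul_mem ih (hz x)
  have hvn : ∀ n, tens (v n) (1 : Op (FreeGroup S)) ∈ A := by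
    intro n
    have h := hUA (FreeGroup.of x₀ ^ (n + 2))
    have h' : UU (⟨K, w⟩ : Rep (FreeGroup S)) (FreeGroup.of x₀ ^ (n + 2))
        = tens (w (FreeGroup.of x₀ ^ (n + 2))) (lam (FreeGroup.of x₀ ^ (n + 2))) := rfl
    rw [h', hwn] at h
    have h2 := star_mem (hlp x₀ (n + 2))
    have h3 := mul_mem h h2
    rw [← T3, ← T2, star_one, mul_one, L3, ← L2', mul_inv_cancel, L1] at h3
    exact h3
  have hspan : ∀ a ∈ Submodule.span ℂ (range v), tens a (1 : Op (FreeGroup S)) ∈ A := by
    intro a ha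
    induction ha using Submodule.span_induction with
    | mem x hx => obtain ⟨n, rfl⟩ := hx; exact hvn n
    | zero => rw [tens_zero_left T]; exact zero_mem _
    | add x y _ _ hx hy => rw [T5]; exact add_mem hx hy
    | smul c x _ hx => rw [(T7 _ _ c x _).1]; exact SMulMemClass.smul_mem c hx
  have hsA := hspan s hsv
  have htA := hspan t htv
  have hstar : ∀ a : Op K, star (tens a (1 : Op (FreeGroup S))) = tens (star a) 1 := by
    intro a; rw [← T3, star_one]
  have hCu : Cuntz (tens s (1 : Op (FreeGroup S))) (tens t (1 : Op (FreeGroup S))) := by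
    refine ⟨?_, ?_, ?_, ?_⟩
    · rw [hstar, ← T2, hst.ss, mul_one, T4]
    · rw [hstar, ← T2, hst.tt, mul_one, T4]
    · rw [hstar, ← T2, hst.st, mul_one, tens_zero_left T]
    · rw [hstar, hstar, ← T2, ← T2, mul_one, ← T5, hst.sum, T4]
  have hcomm : ∀ (x : S) (a : Op K),
      tens (1 : Op K) (lam (FreeGroup.of x)) * tens a (1 : Op (FreeGroup S))
        = tens a (1 : Op (FreeGroup S)) * tens (1 : Op K) (lam (FreeGroup.of x)) := by
    intro x a
    rw [← T2, ← T2, one_mul, mul_one, one_mul, mul_one]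
  have hzu : ∀ g : FreeGroup S, tens (1 : Op K) (lam g) ∈ unitary (Op (K × FreeGroup S)) := by
    intro g
    rw [Unitary.mem_iff]
    constructor
    · rw [← T3, ← T2, star_one, mul_one, (Unitary.mem_iff.1 (L4 g)).1, T4]
    · rw [← T3, ← T2, star_one, mul_one, (Unitary.mem_iff.1 (L4 g)).2, T4]
  have hp : ∀ x : S, ∃ f : unitInterval → Op (K × FreeGroup S), Continuous f ∧
      (∀ r, f r ∈ unitary (Op (K × FreeGroup S))) ∧ f 0 = 1 ∧
      f 1 = tens (1 : Op K) (lam (FreeGroup.of x)) ∧ ∀ r, f r ∈ A := by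
    intro x
    obtain ⟨f, h1, h2, h3, h4, h5⟩ := hP (Op (K × FreeGroup S)) (tens s 1) (tens t 1)
      (tens (1 : Op K) (lam (FreeGroup.of x))) hCu (hzu _) (hcomm x s) (hcomm x t)
      (by rw [hstar]; exact hcomm x _) (by rw [hstar]; exact hcomm x _)
    exact ⟨f, h1, h2, h3, h4, h5 A hsA htA (hz x)⟩
  choose f hf1 hf2 hf3 hf4 hf5 using hp
  let ρ : unitInterval → FreeGroup S →* unitary (Op (K × FreeGroup S)) := fun r =>
    FreeGroup.lift fun x => ⟨f x r, hf2 x r⟩
  have hρ : ∀ r x, ((ρ r (FreeGroup.of x) : unitary (Op (K × FreeGroup S))) :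
      Op (K × FreeGroup S)) = f x r := by
    intro r x; simp [ρ]
  have hρi : ∀ r g, ((ρ r g⁻¹ : unitary (Op (K × FreeGroup S))) :
      Op (K × FreeGroup S)) = star (ρ r g : Op (K × FreeGroup S)) := by
    intro r g; rw [map_inv]; rfl
  have hρm : ∀ r g h, ((ρ r (g * h) : unitary (Op (K × FreeGroup S))) :
      Op (K × FreeGroup S)) = (ρ r g : Op (K × FreeGroup S)) * (ρ r h : Op (K × FreeGroup S)) := by
    intro r g h; rw [map_mul]; rfl
  have hρ1 : ∀ r, ((ρ r 1 : unitary (Op (K × FreeGroup S))) :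
      Op (K × FreeGroup S)) = 1 := by
    intro r; rw [map_one]; rfl
  refine ⟨K, hK, w, ρ, hw, ?_, ?_, ?_, ?_⟩
  · intro g
    induction g using FreeGroup.induction_on with
    | C1 => simp only [hρ1]; exact continuous_const
    | of x => simpa only [hρ] using hf1 x
    | inv_of x h => simp only [hρi]; exact h.star
    | mul x y hx hy => simp only [hρm]; exact hx.mul hy
  · intro r g
    induction g using FreeGroup.induction_on with
    | C1 => rw [hρ1]; exact one_mem _
    | of x => simpa only [hρ] using hf5 x r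
    | inv_of x h => rw [hρi]; exact star_mem h
    | mul x y hx hy => rw [hρm]; exact mul_mem hx hy
  · intro g
    induction g using FreeGroup.induction_on with
    | C1 => rw [hρ1]
    | of x => simpa only [hρ] using hf3 x
    | inv_of x h => rw [hρi, h, star_one]
    | mul x y hx hy => rw [hρm, hx, hy, one_mul]
  · intro g
    induction g using FreeGroup.induction_on with
    | C1 => rw [hρ1, L1, T4]
    | of x => simpa only [hρ] using hf4 x
    | inv_of x h => rw [hρi, h, ← T3, star_one, L3]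
    | mul x y hx hy => rw [hρm, hx, hy, ← T2, one_mul, L2']

end Pool.Agent.Run7.h361.BT
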